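import Pool.Agent.W69.MH.Stm

/-!
# Splitting the series into residue classes (task MH-CLS, helper193)
-/

namespace Pool.Agent.W193.MH.Cls

open Pool.Agent.H262R3.Lk Pool.Agent.W69.MH
open Pool.Agent.H318R2.Cr (Rgh)

theorem cop {z q n : ℕ} (hq : q ≠ 0) (hqz : q ≤ z) (h : Rgh z n) : n.Coprime q := by
  by_contra h0
  obtain ⟨p, hp, h1, h2⟩ := Nat.Prime.not_coprime_iff_dvd.1 h0
  exact h p hp ((Nat.le_of_dvd (Nat.pos_of_ne_zero hq) h2).trans hqz) h1

theorem rgh_zero {z : ℕ} (hz : 2 ≤ z) : ¬ Rgh z 0 := fun h => h 2 Nat.prime_two hz (dvd_zero 2)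

theorem rgh_one (z : ℕ) : Rgh z 1 := fun _ hp _ h => hp.one_lt.ne' (Nat.dvd_one.1 h)

theorem cls_iff {q : ℕ} [NeZero q] (n : ℕ) (x : ZMod q) : n ≡ x.val [MOD q] ↔ (n : ZMod q) = x := by
  rw [← ZMod.natCast_eq_natCast_iff, ZMod.natCast_zmod_val]

theorem smb {w : ℕ → ℂ} (hw : Summable w) (P : ℕ → Prop) [DecidablePred P] :
    Summable fun n => if P n then w n else 0 := by
  have h := hw.indicator {n | P n}
  refine h.congr fun n => ?_
  rw [Set.indicator_apply]
  rfl

open Classical in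
theorem split {z q : ℕ} [NeZero q] (hqz : q ≤ z) {w : ℕ → ℂ} (hw : Summable w)
    (χ : DirichletCharacter ℂ q) :
    ∑' n, fz z χ n * w n = ∑ x : (ZMod q)ˣ, χ x *
      ∑' n, if Rgh z n ∧ n ≡ (x : ZMod q).val [MOD q] then w n else 0 := by
  have h1 : ∀ n, fz z χ n * w n = ∑ x : (ZMod q)ˣ, χ x *
      (if Rgh z n ∧ n ≡ (x : ZMod q).val [MOD q] then w n else 0) := by
    intro n
    unfold fz
    by_cases h : Rgh z n
    · have hc := cop (NeZero.ne q) hqz h
      rw [if_pos h, Finset.sum_eq_single (ZMod.unitOfCoprime n hc)]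
      · rw [if_pos ⟨h, (cls_iff n _).2 (ZMod.coe_unitOfCoprime n hc).symm⟩,
          ZMod.coe_unitOfCoprime]
      · intro x _ hx
        rw [if_neg, mul_zero]
        rintro ⟨-, h2⟩
        rw [cls_iff] at h2
        apply hx
        apply Units.ext
        rw [ZMod.coe_unitOfCoprime, h2]
      · intro h0
        exact absurd (Finset.mem_univ _) h0
    · rw [if_neg h, zero_mul]
      symm
      refine Finset.sum_eq_zero fun x _ => ?_
      rw [if_neg (fun h' => h h'.1), mul_zero]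
  rw [tsum_congr h1, Summable.tsum_finsetSum]
  · exact Finset.sum_congr rfl fun x _ => tsum_mul_left
  · intro x _
    exact (smb hw _).mul_left _

open Classical in
/-- the weights with `n = 1` removed -/
noncomputable def wp (w : ℕ → ℂ) (n : ℕ) : ℂ := if 1 < n then w n else 0

theorem fz_one (z : ℕ) {q : ℕ} (χ : DirichletCharacter ℂ q) : fz z χ 1 = 1 := by
  unfold fz
  rw [if_pos (rgh_one z), Nat.cast_one, map_one]

theorem fz_zero {z : ℕ} (hz : 2 ≤ z) {q : ℕ} (χ : DirichletCharacter ℂ q) : fz z χ 0 = 0 := by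
  unfold fz
  rw [if_neg (rgh_zero hz)]

theorem fz_norm (z : ℕ) {q : ℕ} (χ : DirichletCharacter ℂ q) (n : ℕ) : ‖fz z χ n‖ ≤ 1 := by
  unfold fz
  split_ifs
  · exact χ.norm_le_one _
  · simp

theorem split1 {z q : ℕ} [NeZero q] (hz : 2 ≤ z) {w : ℕ → ℂ} (hw : Summable w)
    (χ : DirichletCharacter ℂ q) :
    ∑' n, fz z χ n * w n = w 1 + ∑' n, fz z χ n * wp w n := by
  have hs : Summable (wp w) := smb hw _
  have h2 : Summable fun n => fz z χ n * wp w n := by
    refine Summable.of_norm_bounded hs.norm fun n => ?_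
    rw [norm_mul]
    exact mul_le_of_le_one_left (norm_nonneg _) (fz_norm z χ n)
  have h1 : ∀ n, fz z χ n * w n = (if n = 1 then w 1 else 0) + fz z χ n * wp w n := by
    intro n
    unfold wp
    rcases Nat.lt_trichotomy n 1 with h | h | h
    · have h0 : n = 0 := by omega
      subst h0
      rw [fz_zero hz]
      simp
    · subst h
      rw [fz_one]
      simp
    · rw [if_neg h.ne', if_pos h, zero_add]
  rw [tsum_congr h1, Summable.tsum_add, tsum_ite_eq]
  · exact (hasSum_ite_eq 1 (w 1)).summable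
  · exact h2

/-- the weights -/
noncomputable def Wf (σ : ℝ) (j n : ℕ) : ℂ := (((Real.log n) ^ j / (n : ℝ) ^ (1 + σ) : ℝ) : ℂ)

/-- the weights with the Möbius function -/
noncomputable def Mf (σ : ℝ) (n : ℕ) : ℂ :=
  ((((ArithmeticFunction.moebius n : ℤ) : ℝ) * (1 / (n : ℝ) ^ (1 + σ)) : ℝ) : ℂ)

theorem cls (hSUM : St_SUM) : St_CLS := by
  classical
  intro z q hq0 σ hz hqz hσ
  obtain ⟨W, hW⟩ : ∃ W : ℕ → ℕ → ℂ, W = Wf σ := ⟨_, rfl⟩
  have hWs : ∀ j, Summable (W j) := fun j => by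
    rw [hW]
    exact (Complex.summable_ofReal.2 (hSUM z q 0 j σ hσ).2.2.1)
  have hW1 : ∀ j, W j 1 = if j = 0 then 1 else 0 := by
    intro j
    rw [hW]
    unfold Wf
    by_cases hj : j = 0
    · subst hj
      simp
    · simp [hj]
  have hA : ∀ (j : ℕ) (x : (ZMod q)ˣ), (∑' n, if Rgh z n ∧ n ≡ (x : ZMod q).val [MOD q] then
      wp (W j) n else 0) = (Aj z q (x : ZMod q).val j σ : ℂ) := by
    intro j x
    unfold Aj
    rw [Complex.ofReal_tsum]
    refine tsum_congr fun n => ?_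
    unfold wp aj
    rw [hW]
    unfold Wf
    by_cases h1 : Rgh z n <;> by_cases h2 : n ≡ (x : ZMod q).val [MOD q] <;>
      by_cases h3 : 1 < n <;> simp [h1, h2, h3]
  have hL : ∀ (χ : DirichletCharacter ℂ q) (j : ℕ), Lj z χ j σ =
      W j 1 + ∑ x : (ZMod q)ˣ, χ x * (Aj z q (x : ZMod q).val j σ : ℂ) := by
    intro χ j
    have e : Lj z χ j σ = ∑' n, fz z χ n * W j n := by
      rw [hW]
      rfl
    rw [e, split1 (by omega) (hWs j) χ, split hqz (show Summable (wp (W j)) from smb (hWs j) _) χ]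
    congr 1
    exact Finset.sum_congr rfl fun x _ => by rw [hA]
  have hLs : ∀ (χ : DirichletCharacter ℂ q) (j : ℕ), Lj z χ j σ = ∑ x : (ZMod q)ˣ, χ x *
      ∑' n, if Rgh z n ∧ n ≡ (x : ZMod q).val [MOD q] then W j n else 0 := by
    intro χ j
    have e : Lj z χ j σ = ∑' n, fz z χ n * W j n := by
      rw [hW]
      rfl
    rw [e, split hqz (hWs j) χ]
  have hD : ∀ (χ : DirichletCharacter ℂ q) (j : ℕ), Dj z χ j σ =
      ∑ x : (ZMod q)ˣ, χ x * (Bj z q (x : ZMod q).val j σ : ℂ) := by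
    intro χ j
    unfold Dj
    rw [split hqz (Complex.summable_ofReal.2 (hSUM z q 0 j σ hσ).2.2.2) χ]
    refine Finset.sum_congr rfl fun x _ => ?_
    congr 1
    unfold Bj
    rw [Complex.ofReal_tsum]
    refine tsum_congr fun n => ?_
    unfold bj
    split_ifs
    · rfl
    · simp
  refine ⟨?_, ?_, hD, ?_, ?_⟩
  · intro χ j hj
    rw [hL, hW1, if_neg (by omega), zero_add]
  · intro χ
    rw [hL, hW1, if_pos rfl]
  · obtain ⟨μ, hμ⟩ : ∃ μ : ℕ → ℂ, μ = Mf σ := ⟨_, rfl⟩
    have hle : ∀ n, ‖μ n‖ ≤ ‖W 0 n‖ := by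
      intro n
      rw [hμ, hW]
      unfold Mf Wf
      simp only [Complex.norm_real, pow_zero, norm_mul]
      refine mul_le_of_le_one_left (norm_nonneg _) ?_
      rw [Real.norm_eq_abs]
      exact_mod_cast ArithmeticFunction.abs_moebius_le_one
    have hμs : Summable μ := Summable.of_norm_bounded (hWs 0).norm hle
    refine ⟨fun x => ∑' n, if Rgh z n ∧ n ≡ (x : ZMod q).val [MOD q] then μ n else 0, ?_, ?_⟩
    · intro χ
      have e : Mj z χ σ = ∑' n, fz z χ n * μ n := by
        rw [hμ]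
        rfl
      rw [e, split hqz hμs χ]
    · have h1 : ∀ x : (ZMod q)ˣ, ‖∑' n, if Rgh z n ∧ n ≡ (x : ZMod q).val [MOD q] then μ n else 0‖
          ≤ ∑' n, ‖if Rgh z n ∧ n ≡ (x : ZMod q).val [MOD q] then W 0 n else 0‖ := by
        intro x
        refine tsum_of_norm_bounded (smb (hWs 0) _).norm.hasSum fun n => ?_
        split_ifs
        · exact hle n
        · simp
      have h2 : ∀ x : (ZMod q)ˣ, ((∑' n, ‖if Rgh z n ∧ n ≡ (x : ZMod q).val [MOD q] then W 0 n
          else 0‖ : ℝ) : ℂ) = ∑' n, if Rgh z n ∧ n ≡ (x : ZMod q).val [MOD q] then W 0 n else 0 := by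
        intro x
        rw [Complex.ofReal_tsum]
        refine tsum_congr fun n => ?_
        split_ifs
        · rw [hW]
          unfold Wf
          simp only [Complex.norm_real, pow_zero]
          rw [Real.norm_of_nonneg]
          positivity
        · simp
      refine (Finset.sum_le_sum fun x _ => h1 x).trans ?_
      have h3 := hLs 1 0
      rw [hL, hW1, if_pos rfl] at h3
      have h4 : ∀ x : (ZMod q)ˣ, (1 : DirichletCharacter ℂ q) (x : ZMod q) = 1 :=
        fun x => MulChar.one_apply_coe x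
      simp only [h4, one_mul] at h3
      rw [← Finset.sum_congr rfl fun x _ => h2 x] at h3
      refine le_of_eq ?_
      have h5 : ((1 + ∑ x : (ZMod q)ˣ, Aj z q (x : ZMod q).val 0 σ : ℝ) : ℂ) =
          ((∑ x : (ZMod q)ˣ, ∑' n, ‖if Rgh z n ∧ n ≡ (x : ZMod q).val [MOD q] then W 0 n
          else 0‖ : ℝ) : ℂ) := by
        rw [Complex.ofReal_add, Complex.ofReal_sum, Complex.ofReal_sum, Complex.ofReal_one]
        exact h3
      exact (Complex.ofReal_injective h5).symm
  · intro j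
    have h3 := hD 1 j
    have h4 : ∀ x : (ZMod q)ˣ, (1 : DirichletCharacter ℂ q) (x : ZMod q) = 1 :=
      fun x => MulChar.one_apply_coe x
    simp only [h4, one_mul] at h3
    apply Complex.ofReal_injective
    rw [Complex.ofReal_sum, ← h3]
    unfold Dj Bj
    rw [Complex.ofReal_tsum]
    refine tsum_congr fun n => ?_
    unfold fz bj
    by_cases h : Rgh z n
    · have hc := cop (NeZero.ne q) hqz h
      rw [if_pos h, if_pos ⟨h, Nat.modEq_one⟩, ← ZMod.coe_unitOfCoprime n hc, h4, one_mul]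
    · rw [if_neg h, if_neg (fun h' => h h'.1), zero_mul, Complex.ofReal_zero]

end Pool.Agent.W193.MH.Cls
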